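import Pool.Agent.H83.UDB.All

/-!
# All Ueda maps of `ℙ^k`: equidistribution of inverse images of generic algebraic sets
-/

set_option autoImplicit false

open Polynomial MeasureTheory Filter Topology
open Pool.Agent.H83.UE

namespace Pool.Agent.Results.MP_75a732_an.GenericUeda

/-- Let `g` be any rational map of degree `d ≥ 2` and `f = Sym^k g` the corresponding Ueda map of
`ℙ^k`.  Let `V` be an algebraic subset of `ℙ^k` of dimension at most `m`, given by forms `𝓕`, which
is generic for `f`.  For almost all `ζ ∈ ℂ^m` the number `δ` of the points `w` of `V` with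
`w(ζ_1) = ... = w(ζ_m) = 0`, counted with the multiplicities of these roots, is finite and the same
(it is the degree of the `m`-dimensional part of `V`), and the currents `d^(-(k-m)n) (f^n)^*[V]`
converge to `δ T^(k-m)`. -/
theorem result : ∀ (k m d : ℕ), 2 ≤ d → m ≤ k → ∀ g : RatMap d,
    ∃ μ : Measure ℂ, g.IsGreenMeasure μ ∧
      ∀ 𝓕 : Set (MvPolynomial (Fin (k + 1)) ℂ), (∀ F ∈ 𝓕, ∃ N, F.IsHomogeneous N) →
        GenericSet g m 𝓕 → ∃ δ : ℕ,
          (∀ᵐ ζ : Fin m → ℂ, {w | w ∈ chart 𝓕 ∧ ∀ j, (mon w).IsRoot (ζ j)}.Finite ∧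
            ∑ᶠ w ∈ {w | w ∈ chart 𝓕 ∧ ∀ j, (mon w).IsRoot (ζ j)},
              ∏ j, (mon w).rootMultiplicity (ζ j) = δ) ∧
          ∀ (L : (Fin k → ℂ) →ₗ[ℂ] (Fin m → ℂ)) (χ : (Fin k → ℂ) → ℂ), Continuous χ →
            HasCompactSupport χ →
              Tendsto (fun n => ((d : ℂ) ^ ((k - m) * n))⁻¹ * slice g n (chart 𝓕) L χ) atTop
                (𝓝 (δ * greenSlice μ L χ)) :=
  Pool.Agent.H83.UDB.All.t_PKF

end Pool.Agent.Results.MP_75a732_an.GenericUeda
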