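import Pool.Agent.H92.EQ.Sets
import Pool.Agent.H92.EM.All

/-!
# Equidistribution in every codimension, supports meeting totally invariant hyperplanes
-/

set_option autoImplicit false

open Filter Topology
open Pool.Agent.H92.EQ

namespace Pool.Agent.Results.MP_75a732_an.MeetingInvariantHyperplanes

/-- Let `f` be a holomorphic endomorphism of `ℙ^k` of degree `d ≥ 2` with the totally invariant
hyperplanes `H_i = {z_i = 0}`, `i < m` (the lift `F` has `F i = X_i ^ d` for `i < m`; `m = 0` is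
allowed).  Let `K` be a closed set which is disjoint from all totally invariant algebraic sets
which contain none of the `H_i`.  Then `d^(-pn) (f^n)^* S` and `d^(-pn) (f^n)^* ω^p` have the
same limit, uniformly over all smooth positive closed `(p,p)`-forms `S` with the mass of `ω^p`
which vanish outside `K` and whose logarithmic masses near the `H_i` are at most `a d^n`
(`a > 0` small). -/
theorem result : ∀ (m k d p q : ℕ) (F : Fin (k + 1) → MvPolynomial (Fin (k + 1)) ℂ)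
    (K : Set (Fin (k + 1) → ℂ)), m ≤ k + 1 → 0 < k → 2 ≤ d → p + q = k → IsH d F →
    (∀ i : Fin (k + 1), (i : ℕ) < m → F i = MvPolynomial.X i ^ d) → ClosedCone K →
    (∀ A, TotInv F A →
      (∀ i : Fin (k + 1), (i : ℕ) < m → ∃ z, z ≠ 0 ∧ z i = 0 ∧ z ∉ Zer A) →
      Disjoint K (Zer A)) →
    ∀ (φ : (Fin (k + 1) → ℂ) → ℝ) (u : Fin q → (Fin (k + 1) → ℂ) → ℝ), Hom0 φ →
    (∀ j, Pot (u j)) →
    ∃ L : ℝ, Tendsto (fun n => pair φ (Sn F d n (om (k + 1) p)) u) atTop (𝓝 L) ∧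
      ∀ ε : ℝ, 0 < ε → ∃ a : ℝ, 0 < a ∧ ∃ n0 : ℕ, ∀ n ≥ n0, ∀ S : Form (Fin (k + 1)) p,
        ProjForm S → VanOff K S → mass q S = mass q (om (k + 1) p) →
        Pool.Agent.H92.EM.LM m q S (a * (d : ℝ) ^ n) → |pair φ (Sn F d n S) u - L| < ε := by
  intro m k d p q F K hm hk hd hpq hF h0 hK hA φ u hφ hu
  have hAw : Pool.Agent.H92.EM.AwayE m F K := by
    refine ⟨hK.1, hK.2, fun A hhom hne hb hinv z hz hz0 hall => ?_⟩
    have hT : TotInv F A := by
      refine ⟨hhom, hne, fun w hw => ?_⟩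
      have hFw : ev F w ≠ 0 := fun hh => hw (hF.nd w hh)
      exact ⟨fun hh => ⟨hw, (hinv w hw).1 hh.2⟩, fun hh => ⟨hFw, (hinv w hw).2 hh.2⟩⟩
    refine Set.disjoint_left.1 (hA A hT fun b hbm => ?_) hz ⟨hz0, hall⟩
    obtain ⟨z1, hz1, hz10, h, hhA, hh⟩ := hb b hbm
    exact ⟨z1, hz1, hz10, fun hZ => hh (hZ.2 h hhA)⟩
  exact Pool.Agent.H92.EM.All.a_MFI m k d p q F K φ u hm hk hd hpq ⟨hF, h0⟩ hAw hφ hu

end Pool.Agent.Results.MP_75a732_an.MeetingInvariantHyperplanes
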