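import Pool.Agent.H83.UDA.All

/-!
# Products of rational maps of the sphere: equidistribution for all positive closed currents
-/

set_option autoImplicit false

open Polynomial MeasureTheory Filter Topology
open Pool.Agent.H83.UE

namespace Pool.Agent.Results.MP_75a732_an.ProductCurrents

/-- Let `g_1, ..., g_k` be rational maps of degree `d ≥ 2` without exceptional points and
`G = g_1 × ... × g_k` on `(ℙ¹)^k`.  For every positive closed current `S` of bidimension `(m, m)`
the currents `d^(-(k-m)n) (G^n)^* S` converge to `∑ c_I ∏_{l ∉ I} dd^c g_l-Green`, uniformly and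
exponentially fast for product test forms of class `C²`. -/
theorem result : ∀ (k m d : ℕ), 2 ≤ d → m ≤ k → ∀ g : Fin k → RatMap d,
    (∀ l, (g l).NoExc) → ∃ μ : Fin k → Measure ℂ, (∀ l, (g l).IsGreenMeasure (μ l)) ∧
      (∀ (S : Current k m) (I J : Idx k m) (χ : (Fin k → ℂ) → ℂ), Continuous χ →
        HasCompactSupport χ →
          (∀ n, Integrable (fun z => pushCoeff g n I J χ z * S.h z I J) S.σ) ∧
          Tendsto (fun n => pairing g n S I J χ) atTop
            (𝓝 (if I = J then (S.c I : ℂ) * ∫ x, χ x ∂(limMeas μ I) else 0))) ∧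
      ∃ r : ℝ, 0 < r ∧ r < 1 ∧ ∀ u : Fin k → ℂ → ℂ, (∀ l, ContDiff ℝ 2 (u l)) →
        (∀ l, HasCompactSupport (u l)) → ∃ C : ℝ, ∀ (S : Current k m) (I J : Idx k m) (n : ℕ),
          ‖pairing g n S I J (fun x => ∏ l, u l (x l)) -
            (if I = J then (S.c I : ℂ) * ∫ x, ∏ l, u l (x l) ∂(limMeas μ I) else 0)‖ ≤
            C * Real.sqrt (S.c I * S.c J) * r ^ n :=
  Pool.Agent.H83.UDA.All.t_MAIN

end Pool.Agent.Results.MP_75a732_an.ProductCurrents
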